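import Pool.Agent.Y80.KM.HStruct
import Pool.Agent.Y80.KM.CharDefs
import Pool.Agent.Y839.KM.Ext

set_option autoImplicit false

open scoped BigOperators

/-! Job Y80-KM-EULER: the Euler-Poincare formula in each degree and weight. -/

namespace Pool.Agent.Y924.KM

open Pool.Agent.Y80.KM

universe u

section dim

variable {k V W : Type*} [Field k] [AddCommGroup V] [Module k V] [AddCommGroup W] [Module k W]

theorem rank_nullity (f : V →ₗ[k] W) (E : Submodule k V) [FiniteDimensional k E] :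
    Module.finrank k E = Module.finrank k ↥(E.map f) + Module.finrank k ↥(E ⊓ LinearMap.ker f) := by
  have h := LinearMap.finrank_range_add_finrank_ker (f.domRestrict E)
  rw [← h]
  congr 1
  · rw [LinearMap.range_domRestrict]
  · rw [LinearMap.ker_domRestrict, ← Submodule.finrank_map_subtype_eq, Submodule.map_comap_subtype]

end dim

section main

variable {k L : Type u} [Field k] [LieRing L] [LieAlgebra k L] {N : ℕ} {I : Type u}

theorem sum_fst {ι : Type*} (S : Finset ι) (f : ι → ℕ × (Fin N → ℤ)) :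
    (∑ i ∈ S, f i).1 = ∑ i ∈ S, (f i).1 := by
  exact map_sum (AddMonoidHom.fst ℕ (Fin N → ℤ)) f S

theorem card_le (H : HData k L N I) {S : Finset I} {n : ℕ} {μ : Fin N → ℤ}
    (h : ∑ i ∈ S, H.γ i = (n, μ)) : S.card ≤ n := by
  have h1 : ∑ i ∈ S, (H.γ i).1 = n := by rw [← sum_fst, h]
  rw [← h1, Finset.card_eq_sum_ones]
  exact Finset.sum_le_sum fun i _ => H.hpos i

theorem fin_le (H : HData k L N I) (n : ℕ) : {i | (H.γ i).1 ≤ n}.Finite := by
  have h : {i | (H.γ i).1 ≤ n} = ⋃ m ∈ Finset.range (n + 1), {i | (H.γ i).1 = m} := by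
    ext i
    simp only [Set.mem_ofPred_eq, Finset.mem_range, Set.mem_iUnion, exists_prop]
    constructor
    · intro h
      exact ⟨_, by omega, rfl⟩
    · rintro ⟨m, h1, h2⟩
      omega
  rw [h]
  exact Set.Finite.biUnion (Finset.finite_toSet _) fun m _ => H.hfin m

theorem fin_sets (H : HData k L N I) (p n : ℕ) (μ : Fin N → ℤ) :
    {S : Finset I | S.card = p ∧ ∑ i ∈ S, H.γ i = (n, μ)}.Finite := by
  refine ((fin_le H n).toFinset.powerset.finite_toSet).subset ?_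
  rintro S ⟨-, h⟩
  rw [Finset.mem_coe, Finset.mem_powerset]
  intro i hi
  rw [Set.Finite.mem_toFinset, Set.mem_ofPred_eq]
  have h1 : ∑ i ∈ S, (H.γ i).1 = n := by rw [← sum_fst, h]
  rw [← h1]
  exact Finset.single_le_sum (f := fun i => (H.γ i).1) (fun _ _ => Nat.zero_le _) hi

theorem eg_top_bot (H : HData k L N I) (n : ℕ) (μ : Fin N → ℤ) :
    eg H.b H.γ (n + 1) (n, μ) = ⊥ := by
  have := Pool.Agent.Y839.KM.eg_finite H.b H.γ (n + 1) (n, μ) (fin_sets H _ _ _)
  rw [← Submodule.finrank_eq_zero (R := k),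
    Pool.Agent.Y839.KM.eg_finrank H.b H.γ (n + 1) (n, μ) (fin_sets H _ _ _),
    Set.ncard_eq_zero (fin_sets H _ _ _)]
  ext S
  simp only [Set.mem_ofPred_eq, Set.mem_empty_iff_false, iff_false, not_and]
  intro h1 h2
  have := card_le H h2
  omega

theorem tele (z b : ℕ → ℤ) (c : ℕ → ℤ) (n : ℕ) (h0 : c 0 = z 0)
    (h1 : ∀ p, c (p + 1) = b (p + 1) + z (p + 1)) :
    ∑ p ∈ Finset.range (n + 1), (-1) ^ p * c p =
      ∑ p ∈ Finset.range (n + 1), (-1) ^ p * (z p - b (p + 1)) + (-1) ^ n * b (n + 1) := by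
  induction n with
  | zero => simp [h0]
  | succ n ih =>
    rw [Finset.sum_range_succ, ih, Finset.sum_range_succ _ (n + 1), h1, pow_succ]
    ring

theorem euler' (H : HData k L N I) (n : ℕ) (μ : Fin N → ℤ) :
    H.chi n μ = ∑ p ∈ Finset.range (n + 1), (-1) ^ p * H.hm p n μ := by
  have hfd : ∀ p, FiniteDimensional k (eg H.b H.γ p (n, μ)) := fun p =>
    Pool.Agent.Y839.KM.eg_finite H.b H.γ p (n, μ) (fin_sets H _ _ _)
  have hc : ∀ p, ({S : Finset I | S.card = p ∧ ∑ i ∈ S, H.γ i = (n, μ)}.ncard : ℤ) =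
      (Module.finrank k (eg H.b H.γ p (n, μ)) : ℤ) := fun p => by
    rw [Pool.Agent.Y839.KM.eg_finrank H.b H.γ p (n, μ) (fin_sets H _ _ _)]
  rw [HData.chi]
  simp only [hc, HData.hm]
  rw [tele (fun p => (Module.finrank k
      ↥(eg H.b H.γ p (n, μ) ⊓ LinearMap.ker (ced k L)) : ℤ))
    (fun p => (Module.finrank k ↥((eg H.b H.γ p (n, μ)).map (ced k L)) : ℤ)) _ n]
  · have : (eg H.b H.γ (n + 1) (n, μ)).map (ced k L) = ⊥ := by
      rw [eg_top_bot, Submodule.map_bot]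
    rw [this]
    simp
  · have : eg H.b H.γ 0 (n, μ) ⊓ LinearMap.ker (ced k L) = eg H.b H.γ 0 (n, μ) := by
      rw [inf_eq_left]
      intro w hw
      exact ced_eg_zero H.b H.γ hw
    rw [this]
  · intro p
    have := rank_nullity (ced k L) (eg H.b H.γ (p + 1) (n, μ))
    exact_mod_cast this

theorem hm_zero' (H : HData k L N I) (n : ℕ) (hn : 1 ≤ n) (μ : Fin N → ℤ) :
    H.hm 0 n μ = 0 := by
  have h1 : eg H.b H.γ 0 (n, μ) = ⊥ := by
    have := Pool.Agent.Y839.KM.eg_finite H.b H.γ 0 (n, μ) (fin_sets H _ _ _)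
    rw [← Submodule.finrank_eq_zero (R := k),
      Pool.Agent.Y839.KM.eg_finrank H.b H.γ 0 (n, μ) (fin_sets H _ _ _),
      Set.ncard_eq_zero (fin_sets H _ _ _)]
    ext S
    simp only [Set.mem_ofPred_eq, Set.mem_empty_iff_false, iff_false, not_and]
    intro h1 h2
    rw [Finset.card_eq_zero] at h1
    subst h1
    rw [Finset.sum_empty] at h2
    have := congrArg Prod.fst h2
    simp only [Prod.fst_zero] at this
    omega
  have h2 : (eg H.b H.γ (0 + 1) (n, μ)).map (ced k L) = ⊥ := by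
    rw [eq_bot_iff]
    rintro _ ⟨w, hw, rfl⟩
    rw [Submodule.mem_bot]
    exact ced_eg_one H.b H.γ hw
  rw [HData.hm, h1, h2, bot_inf_eq, sub_self]

theorem eg_one_le (H : HData k L N I) (g : ℕ × (Fin N → ℤ)) :
    eg H.b H.γ 1 g ≤ (hsp H.b H.γ g).map (ExteriorAlgebra.ι k) := by
  rw [eg, Submodule.span_le]
  rintro _ ⟨l, hl, hg, rfl⟩
  rw [List.length_eq_one_iff] at hl
  obtain ⟨i, rfl⟩ := hl
  refine ⟨H.b i, Submodule.subset_span ⟨i, ?_, rfl⟩, by simp⟩
  simpa using hg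

theorem hm_one' (H : HData k L N I) (n : ℕ) (μ : Fin N → ℤ)
    (hgen : hsp H.b H.γ (n, μ) ≤ Submodule.span k {x | ∃ g g' : ℕ × (Fin N → ℤ),
      g + g' = (n, μ) ∧ ∃ y ∈ hsp H.b H.γ g, ∃ z ∈ hsp H.b H.γ g', x = ⁅y, z⁆}) :
    H.hm 1 n μ = 0 := by
  have h1 : eg H.b H.γ 1 (n, μ) ⊓ LinearMap.ker (ced k L) = eg H.b H.γ 1 (n, μ) := by
    rw [inf_eq_left]
    intro w hw
    exact ced_eg_one H.b H.γ hw
  have h2 : (eg H.b H.γ (1 + 1) (n, μ)).map (ced k L) = eg H.b H.γ 1 (n, μ) := by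
    apply le_antisymm
    · rintro _ ⟨w, hw, rfl⟩
      exact ced_mem_eg H.b H.γ H.hbr hw
    · refine (eg_one_le H _).trans ?_
      rintro _ ⟨x, hx, rfl⟩
      have hx' := hgen hx
      clear hx
      induction hx' using Submodule.span_induction with
      | mem x hx =>
        obtain ⟨g, g', hg, y, hy, z, hz, rfl⟩ := hx
        have hz1 : ExteriorAlgebra.ι k z ∈ eg H.b H.γ 1 g' := by
          have := mul_mem_eg H.b H.γ hz (one_mem_eg H.b H.γ)
          rwa [mul_one, zero_add, add_zero] at this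
        have hyz := mul_mem_eg H.b H.γ hy hz1
        rw [hg] at hyz
        refine ⟨_, hyz, ?_⟩
        rw [ced_ι_mul, ced_ι, mul_zero, sub_zero, theta_ι]
        rfl
      | zero => rw [map_zero]; exact zero_mem _
      | add u v _ _ hu hv => rw [map_add]; exact add_mem hu hv
      | smul c u _ hu => rw [map_smul]; exact Submodule.smul_mem _ c hu
  rw [HData.hm, h1, h2, sub_self]

end main

theorem euler {k L : Type u} [Field k] [CharZero k] [LieRing L] [LieAlgebra k L] {N : ℕ}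
    {I : Type u} (H : HData k L N I) (n : ℕ) (μ : Fin N → ℤ) :
    H.chi n μ = ∑ p ∈ Finset.range (n + 1), (-1) ^ p * H.hm p n μ := euler' H n μ

theorem hm_zero {k L : Type u} [Field k] [CharZero k] [LieRing L] [LieAlgebra k L] {N : ℕ}
    {I : Type u} (H : HData k L N I) (n : ℕ) (hn : 1 ≤ n) (μ : Fin N → ℤ) : H.hm 0 n μ = 0 :=
  hm_zero' H n hn μ

theorem hm_one {k L : Type u} [Field k] [CharZero k] [LieRing L] [LieAlgebra k L] {N : ℕ}
    {I : Type u} (H : HData k L N I) (n : ℕ) (μ : Fin N → ℤ)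
    (hgen : hsp H.b H.γ (n, μ) ≤ Submodule.span k {x | ∃ g g' : ℕ × (Fin N → ℤ),
      g + g' = (n, μ) ∧ ∃ y ∈ hsp H.b H.γ g, ∃ z ∈ hsp H.b H.γ g', x = ⁅y, z⁆}) :
    H.hm 1 n μ = 0 := hm_one' H n μ hgen

end Pool.Agent.Y924.KM
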